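import Pool.Agent.TH877.M2.Fin2
import Pool.Agent.TH415.AP.Pre

set_option autoImplicit false

/-! # Intervals free of integers with at most two prime factors, inside record prime gaps

For every `0 < θ ≤ 1` there is `c > 0` such that for all large `x` some interval with centre
`n ∈ (x, x + x^θ]` and radius `c log x (log₂ x)² log₄ x / (log₃ x)²` contains no prime, and its core
of radius `c log x log₂ x` contains no integer with fewer than three prime factors (counted with
multiplicity).  The sieve is `Pool.Agent.TH877.M2` (helper877), the choice of the classes modulo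
the small primes is `TH415.AP.presieve` (helper415). -/

namespace Pool.Agent.Results.MP_c853c5_nt.NoAlmostPrimes

open Pool.Agent.TH877.M2

theorem preStmt : PreStmt := by
  intro ε hε
  exact TH415.AP.presieve ε hε

theorem result (θ : ℝ) (h0 : 0 < θ) (h1 : θ ≤ 1) :
    ∃ c : ℝ, 0 < c ∧ ∃ x₀ : ℝ, ∀ x : ℝ, x₀ ≤ x →
    ∃ n : ℕ, x < n ∧ (n : ℝ) ≤ x + x ^ θ ∧
      (∀ m : ℕ, |(m : ℝ) - n| ≤ c * (Real.log x * (Real.log (Real.log x)) ^ 2 *
        Real.log (Real.log (Real.log (Real.log x))) /
          (Real.log (Real.log (Real.log x))) ^ 2) → ¬ m.Prime) ∧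
      ∀ m : ℕ, |(m : ℝ) - n| ≤ c * (Real.log x * Real.log (Real.log x)) →
        3 ≤ m.primeFactorsList.length :=
  short preStmt θ h0 h1

end Pool.Agent.Results.MP_c853c5_nt.NoAlmostPrimes
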