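import Pool.Agent.TH101.RG.PatZ

set_option autoImplicit false

/-!
# Arbitrary prime-free patterns of record size at the multiples of primes

The starting files (`MP_711652_nt.PrimeFreePatterns`) find integers `n` all of whose translates by an arbitrary set of
record size are not prime. Here `n = a p` is a multiple of a prime, and all the rational multiples of `n` of bounded
height are treated at once. The classes for `p` avoid the class `0` for every prime, which makes the weights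
`|z|/φ(|z|)` necessary (`covZ`); the weights and the count of the primes are those of `MP_c853c5_nt.RecordGapsAtShiftedPrimes`.
-/

open Filter

namespace Pool.Agent.Results.MP_c853c5_nt.PrimeFreePatternsAtPrimes

/-- The record scale `f(x) = log x (log₂ x)² log₄ x / (log₃ x)²` (iterated natural logarithms). -/
noncomputable def f (x : ℝ) : ℝ :=
  Real.log x * (Real.log (Real.log x)) ^ 2 * Real.log (Real.log (Real.log (Real.log x))) /
    (Real.log (Real.log (Real.log x))) ^ 2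

/-- For all `A`, `D`, `J`, `A₀` and squarefree `d` there is `c > 0` such that for all large `X`, all integers `a ≠ 0`
with `|a| ≤ (log X)^D`, `|a| ≤ A₀ φ(|a|)`, all `h` prime to `d` and all finite sets `Z` of nonzero integers
`|z| ≤ log X (log log X)^A` with `∑ |z|/φ(|z|) ≤ c f(X)`: at least `X^(9/10)` primes `p ∈ (X, 3X]`, `p ≡ h (mod d)`,
are such that `j q - i a p ∉ Z` for all integers `i`, `j` with `1 ≤ |i|, |j| ≤ J` and all primes `q`. -/
theorem result (A D J : ℕ) (A₀ : ℝ) (d : ℕ) (hd : Squarefree d) : ∃ c : ℝ, 0 < c ∧ ∃ X₀ : ℝ, ∀ X : ℝ, X₀ ≤ X →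
    ∀ a : ℤ, a ≠ 0 → |(a : ℝ)| ≤ (Real.log X) ^ D → |(a : ℝ)| ≤ A₀ * (a.natAbs.totient : ℝ) →
    ∀ h : ℕ, h.Coprime d → ∀ Z : Finset ℤ,
    (∀ z ∈ Z, z ≠ 0 ∧ |(z : ℝ)| ≤ Real.log X * (Real.log (Real.log X)) ^ A) →
    ∑ z ∈ Z, (|(z : ℝ)| / (z.natAbs.totient : ℝ)) ≤ c * f X →
    X ^ (9 / 10 : ℝ) ≤ ({p : ℕ | p.Prime ∧ X < p ∧ (p : ℝ) ≤ 3 * X ∧ p ≡ h [MOD d] ∧
      ∀ i j : ℤ, 1 ≤ |i| → |i| ≤ J → 1 ≤ |j| → |j| ≤ J → ∀ q : ℕ, q.Prime →
        j * q - i * (a * p) ∉ Z}.ncard : ℝ) := by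
  obtain ⟨c, hc, hX⟩ := Pool.Agent.TH101.RG.pattern_free A D J A₀ d hd
  obtain ⟨X₀, hX₀⟩ := eventually_atTop.1 hX
  refine ⟨c, hc, X₀, fun X hXX a ha haD haφ h hh Z hZ hZw => ?_⟩
  set S := {p : ℕ | p.Prime ∧ X < p ∧ (p : ℝ) ≤ 3 * X ∧ p ≡ h [MOD d] ∧
      ∀ i j : ℤ, 1 ≤ |i| → |i| ≤ J → 1 ≤ |j| → |j| ≤ J → ∀ q : ℕ, q.Prime →
        j * q - i * (a * p) ∉ Z} with hS
  have hfin : S.Finite := by
    apply (Set.finite_Iic ⌊3 * X⌋₊).subset
    intro p hp
    exact Set.mem_Iic.2 (Nat.le_floor hp.2.2.1)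
  by_contra hcon
  push Not at hcon
  rw [Set.ncard_eq_toFinset_card S hfin] at hcon
  obtain ⟨p, hp, hXp, hp3, hpb, hpd, hmain⟩ := hX₀ X hXX a ha haD haφ h hh Z hZ
    (by
      refine le_trans (le_of_eq (Finset.sum_congr rfl fun z _ => ?_)) hZw
      rw [Nat.cast_natAbs, Int.cast_abs]) hfin.toFinset hcon.le
  apply hpb
  rw [Set.Finite.mem_toFinset]
  exact ⟨hp, hXp, hp3, hpd, hmain⟩

end Pool.Agent.Results.MP_c853c5_nt.PrimeFreePatternsAtPrimes
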