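import Pool.Agent.TH536.RI.Main

set_option autoImplicit false

/-!
# Primes alone among the integers without small prime factors

The record sieve of the starting files (`Pool.Agent.H256R2`, `H312R2`, `H378R2`) and its version with a prime in the
middle of the window (`Pool.Agent.TH101.RG`, helper101) use sieving primes up to a power of `X`. Here the sieving
primes are at most `y`, where `y` may be as small as a power of `log X`: with `m + 1` dyadic scales of sieving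
primes the weights cover about `(m + 1) log X / log log X` integers, and the window is adapted to this number.
-/

open Filter

namespace Pool.Agent.Results.MP_c853c5_nt.PrimesAloneAmongRough

/-- Rankin's function `R(x) = log x log₂ x log₄ x / (log₃ x)²` (iterated natural logarithms). -/
noncomputable def R (x : ℝ) : ℝ :=
  Real.log x * Real.log (Real.log x) * Real.log (Real.log (Real.log (Real.log x))) /
    (Real.log (Real.log (Real.log x))) ^ 2

/-- For all `D`, `A₀` and squarefree `d` there are `A ≥ 1`, `c > 0` such that for all large `X`, all `y` with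
`(log X)^A ≤ y ≤ X`, all integers `a ≠ 0`, `b` with `|a| ≤ (log X)^D`, `|a| ≤ A₀ φ(|a|)`, `|b| ≤ X^D` and all `h`
prime to `d`: at least `X^(9/10)` primes `p ∈ (X, 3X]`, `p ≡ h (mod d)`, are such that every integer `n ≠ a p` with
`|n - (a p + b)| ≤ c R(X) log (log y / log log X)` has a prime factor `q ≤ y` not dividing `a d`. -/
theorem result (D : ℕ) (A₀ : ℝ) (d : ℕ) (hd : Squarefree d) :
    ∃ A c : ℝ, 1 ≤ A ∧ 0 < c ∧ ∃ X₀ : ℝ, ∀ X : ℝ, X₀ ≤ X →
    ∀ y : ℝ, (Real.log X) ^ A ≤ y → y ≤ X →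
    ∀ a b : ℤ, a ≠ 0 → |(a : ℝ)| ≤ (Real.log X) ^ D → |(a : ℝ)| ≤ A₀ * (a.natAbs.totient : ℝ) →
    |(b : ℝ)| ≤ X ^ D → ∀ h : ℕ, h.Coprime d →
    X ^ (9 / 10 : ℝ) ≤ ({p : ℕ | p.Prime ∧ X < p ∧ (p : ℝ) ≤ 3 * X ∧ p ≡ h [MOD d] ∧
      ∀ n : ℤ, n ≠ a * p →
        |((n - (a * p + b) : ℤ) : ℝ)| ≤ c * (R X * Real.log (Real.log y / Real.log (Real.log X))) →
        ∃ q : ℕ, q.Prime ∧ (q : ℝ) ≤ y ∧ ¬ (q : ℤ) ∣ a * d ∧ (q : ℤ) ∣ n}.ncard : ℝ) := by
  obtain ⟨c, A, hc, hA, hX⟩ := Pool.Agent.TH536.RI.alone D A₀ d hd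
  obtain ⟨X₀, hX₀⟩ := eventually_atTop.1 hX
  refine ⟨A, c, hA, hc, X₀, fun X hXX y hy1 hy2 a b ha haD haφ hb h hh => ?_⟩
  set S := {p : ℕ | p.Prime ∧ X < p ∧ (p : ℝ) ≤ 3 * X ∧ p ≡ h [MOD d] ∧
      ∀ n : ℤ, n ≠ a * p →
        |((n - (a * p + b) : ℤ) : ℝ)| ≤ c * (R X * Real.log (Real.log y / Real.log (Real.log X))) →
        ∃ q : ℕ, q.Prime ∧ (q : ℝ) ≤ y ∧ ¬ (q : ℤ) ∣ a * d ∧ (q : ℤ) ∣ n} with hS
  have hfin : S.Finite := by
    apply (Set.finite_Iic ⌊3 * X⌋₊).subset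
    intro p hp
    exact Set.mem_Iic.2 (Nat.le_floor hp.2.2.1)
  by_contra hcon
  push Not at hcon
  rw [Set.ncard_eq_toFinset_card S hfin] at hcon
  obtain ⟨p, hp, hXp, hp3, hpb, hpd, hmain⟩ :=
    hX₀ X hXX y hy1 hy2 a b ha haD haφ hb h hh hfin.toFinset hcon.le
  apply hpb
  rw [Set.Finite.mem_toFinset]
  exact ⟨hp, hXp, hp3, hpd, fun n hn1 hn2 => hmain n hn2 hn1⟩

end Pool.Agent.Results.MP_c853c5_nt.PrimesAloneAmongRough
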