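import Pool.Agent.TH101.RG.Mult

set_option autoImplicit false

/-!
# Record prime-free intervals around the rational multiples of linear images of primes

The record sieve of the starting files (`Pool.Agent.H256R2`, `H312R2`, `H378R2`) clears long intervals
around integers `n` in a prescribed class modulo a product `W` of small primes. Here it is run with `n` itself a
prime and the interval placed around `a n + b` (and all its multiples by rationals of bounded height), where
`b` may be as large as `X^D`: the classes for `n` avoid one nonzero class for every prime (`rsurvK`), the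
one point of the window which cannot be covered is killed by hand, the weights are those for arbitrary residues
(`weightsG`), and the Bombieri-Vinogradov theorem of the starting files counts the primes `n`.
-/

open Filter

namespace Pool.Agent.Results.MP_c853c5_nt.RecordGapsAtShiftedPrimes

/-- The record scale `f(x) = log x (log₂ x)² log₄ x / (log₃ x)²` (iterated natural logarithms). -/
noncomputable def f (x : ℝ) : ℝ :=
  Real.log x * (Real.log (Real.log x)) ^ 2 * Real.log (Real.log (Real.log (Real.log x))) /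
    (Real.log (Real.log (Real.log x))) ^ 2

/-- For all `J`, `D`, `A₀` and squarefree `d` there is `c > 0` such that for all large `X`, all integers `a ≠ 0`,
`b` with `|a| ≤ (log X)^D`, `|a| ≤ A₀ φ(|a|)`, `|b| ≤ X^D` and all `h` prime to `d`: at least `X^(7/8)` primes
`p ∈ (X, 3X]`, `p ≡ h (mod d)`, are such that for all integers `i`, `j` with `1 ≤ |i|, |j| ≤ J` and every prime
`q ≠ p` one has `|j q - i (a p + b)| > c f(X)`. -/
theorem result (J D : ℕ) (A₀ : ℝ) (d : ℕ) (hd : Squarefree d) : ∃ c : ℝ, 0 < c ∧ ∃ X₀ : ℝ, ∀ X : ℝ, X₀ ≤ X →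
    ∀ a b : ℤ, a ≠ 0 → |(a : ℝ)| ≤ (Real.log X) ^ D → |(a : ℝ)| ≤ A₀ * (a.natAbs.totient : ℝ) →
    |(b : ℝ)| ≤ X ^ D → ∀ h : ℕ, h.Coprime d →
    X ^ (7 / 8 : ℝ) ≤ ({p : ℕ | p.Prime ∧ X < p ∧ (p : ℝ) ≤ 3 * X ∧ p ≡ h [MOD d] ∧
      ∀ i j : ℤ, 1 ≤ |i| → |i| ≤ J → 1 ≤ |j| → |j| ≤ J → ∀ q : ℕ, q.Prime → q ≠ p →
        c * f X < |((j * q - i * (a * p + b) : ℤ) : ℝ)|}.ncard : ℝ) := by
  obtain ⟨c, hc, hX⟩ := Pool.Agent.TH101.RG.multiples J D A₀ d hd
  obtain ⟨X₀, hX₀⟩ := eventually_atTop.1 hX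
  refine ⟨c, hc, X₀, fun X hXX a b ha haD haφ hb h hh => ?_⟩
  set S := {p : ℕ | p.Prime ∧ X < p ∧ (p : ℝ) ≤ 3 * X ∧ p ≡ h [MOD d] ∧
      ∀ i j : ℤ, 1 ≤ |i| → |i| ≤ J → 1 ≤ |j| → |j| ≤ J → ∀ q : ℕ, q.Prime → q ≠ p →
        c * f X < |((j * q - i * (a * p + b) : ℤ) : ℝ)|} with hS
  have hfin : S.Finite := by
    apply (Set.finite_Iic ⌊3 * X⌋₊).subset
    intro p hp
    exact Set.mem_Iic.2 (Nat.le_floor hp.2.2.1)
  by_contra hcon
  push Not at hcon
  rw [Set.ncard_eq_toFinset_card S hfin] at hcon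
  obtain ⟨p, hp, hXp, hp3, hpb, hpd, hmain⟩ := hX₀ X hXX a b ha haD haφ hb h hh hfin.toFinset hcon.le
  apply hpb
  rw [Set.Finite.mem_toFinset]
  refine ⟨hp, hXp, hp3, hpd, fun i j hi1 hiJ hj1 hjJ q hq hqp => ?_⟩
  by_contra hle
  push Not at hle
  exact hqp (hmain i j hi1 hiJ hj1 hjJ q hq hle)

end Pool.Agent.Results.MP_c853c5_nt.RecordGapsAtShiftedPrimes
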